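import Pool.Agent.Y5.D.Stm

open Set Filter Topology MeasureTheory

set_option autoImplicit false

namespace Pool.Agent.Y275.ND

open Pool.Agent.Y5 Pool.Agent.Y5.D

/-! Basic facts about frequencies and finitely supported families. -/

lemma vec_norm_sq (k : Z3) : ‖vec k‖ ^ 2 = ∑ i : Fin 3, (k i : ℝ) ^ 2 := by
  unfold vec
  rw [EuclideanSpace.norm_sq_eq]
  simp

lemma abs_le_norm_vec (k : Z3) (i : Fin 3) : |(k i : ℝ)| ≤ ‖vec k‖ := by
  have h := vec_norm_sq k
  have h2 : (k i : ℝ) ^ 2 ≤ ‖vec k‖ ^ 2 := by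
    rw [h]
    exact Finset.single_le_sum (f := fun i => (k i : ℝ) ^ 2) (fun _ _ => sq_nonneg _)
      (Finset.mem_univ i)
  exact abs_le_of_sq_le_sq h2 (norm_nonneg _)

lemma finite_ball (R : ℝ) : {k : Z3 | ‖vec k‖ ≤ R}.Finite := by
  have hsub : {k : Z3 | ‖vec k‖ ≤ R} ⊆ Set.pi Set.univ (fun _ : Fin 3 => Set.Icc (-⌈R⌉) ⌈R⌉) := by
    intro k hk i _
    have h1 := abs_le_norm_vec k i
    have h2 : |(k i : ℝ)| ≤ R := h1.trans hk
    have h3 : |(k i : ℝ)| ≤ (⌈R⌉ : ℝ) := h2.trans (Int.le_ceil R)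
    rw [abs_le] at h3
    constructor
    · exact_mod_cast h3.1
    · exact_mod_cast h3.2
  exact (Set.Finite.pi' (fun _ : Fin 3 => Set.finite_Icc (-⌈R⌉) ⌈R⌉)).subset (by
    intro k hk i
    exact hsub hk i (Set.mem_univ i))

variable {J : Type} {ν : ℝ} {g : J → ℕ} {F L ℓ M N : ℕ → ℝ} {e : Ix J → Fam}

lemma supp_finite (h : Conc ν g F L ℓ M N e) (a : Ix J) : {k | e a k ≠ 0}.Finite :=
  (finite_ball (F (gr g a))).subset (fun k hk => (h.fsupp a k hk).2)

lemma e_summable (h : Conc ν g F L ℓ M N e) (a : Ix J) : Summable (fun k => ‖e a k‖) := by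
  apply summable_of_hasFiniteSupport
  refine (supp_finite h a).subset ?_
  intro k hk
  simp only [Function.mem_support, ne_eq, norm_eq_zero] at hk
  exact hk

lemma e_le (h : Conc ν g F L ℓ M N e) (a : Ix J) (k : Z3) : ‖e a k‖ ≤ M (gr g a) :=
  ((e_summable h a).le_tsum k (fun _ _ => norm_nonneg _)).trans (h.l1 a)

lemma M_nonneg (h : Conc ν g F L ℓ M N e) (a : Ix J) : 0 ≤ M (gr g a) :=
  (norm_nonneg _).trans (e_le h a 0)

lemma exists_supp (h : Conc ν g F L ℓ M N e) (a : Ix J) : ∃ k, e a k ≠ 0 := by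
  by_contra hc
  push Not at hc
  have h1 := (h.orth a a).1 rfl
  unfold pair at h1
  simp [hc] at h1

lemma F_ge (h : Conc ν g F L ℓ M N e) (a : Ix J) : 1 ≤ F (gr g a) := by
  obtain ⟨k, hk⟩ := exists_supp h a
  exact (h.fsupp a k hk).1.trans (h.fsupp a k hk).2

lemma supp_le (h : Conc ν g F L ℓ M N e) (a : Ix J) (k : Z3) (hk : e a k ≠ 0) :
    ‖vec k‖ ≤ M (gr g a) := (h.fsupp a k hk).2.trans (h.F_le _)

lemma pow_e_le (h : Conc ν g F L ℓ M N e) (a : Ix J) (k : Z3) (m : ℕ) :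
    ‖vec k‖ ^ m * ‖e a k‖ ≤ M (gr g a) ^ (m + 1) := by
  by_cases hk : e a k = 0
  · rw [hk, norm_zero, mul_zero]
    exact pow_nonneg (M_nonneg h a) _
  · rw [pow_succ]
    exact mul_le_mul (pow_le_pow_left₀ (norm_nonneg _) (supp_le h a k hk) m) (e_le h a k)
      (norm_nonneg _) (pow_nonneg (M_nonneg h a) _)

lemma rap_e (h : Conc ν g F L ℓ M N e) (a : Ix J) : Rap (e a) := fun m =>
  ⟨M (gr g a) ^ (m + 1), fun k => pow_e_le h a k m⟩

/-! ### Sums over the groups -/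

lemma fib {g : J → ℕ} {M : ℕ → ℝ} (hfin : ∀ m, {j | g j = m}.Finite)
    (hcard : ∀ m, ({j | g j = m}.ncard : ℝ) ≤ M m) (f : ℕ → ℝ) (hf : ∀ m, 0 ≤ f m)
    (hs : Summable (fun m => M m * f m)) :
    Summable (fun w => f (g w)) ∧ ∑' w, f (g w) ≤ ∑' m, M m * f m := by
  classical
  have hM : ∀ m, 0 ≤ M m := fun m => (Nat.cast_nonneg _).trans (hcard m)
  have key : ∀ s : Finset J, ∑ w ∈ s, f (g w) ≤ ∑' m, M m * f m := by
    intro s
    rw [← Finset.sum_fiberwise_of_maps_to (s := s) (t := s.image g) (g := g)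
      (fun x hx => Finset.mem_image_of_mem g hx)]
    refine le_trans (Finset.sum_le_sum (g := fun m => M m * f m) ?_)
      (hs.sum_le_tsum _ (fun m _ => mul_nonneg (hM m) (hf m)))
    intro m _
    have h1 : ∑ w ∈ s with g w = m, f (g w) = ∑ w ∈ s with g w = m, f m :=
      Finset.sum_congr rfl (fun w hw => by rw [(Finset.mem_filter.1 hw).2])
    rw [h1, Finset.sum_const, nsmul_eq_mul]
    refine mul_le_mul_of_nonneg_right (le_trans ?_ (hcard m)) (hf m)
    have h2 : (({w ∈ s | g w = m} : Finset J) : Set J) ⊆ {j | g j = m} := by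
      intro w hw
      exact (Finset.mem_filter.1 (Finset.mem_coe.1 hw)).2
    have h3 := Set.ncard_le_ncard h2 (hfin m)
    rw [Set.ncard_coe_finset] at h3
    exact_mod_cast h3
  have h1 : Summable (fun w => f (g w)) :=
    summable_of_sum_le (fun w => hf _) key
  exact ⟨h1, h1.tsum_le_of_sum_le key⟩

end Pool.Agent.Y275.ND
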