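import Pool.Agent.Y275.ND.A1

open Set Filter Topology MeasureTheory

set_option autoImplicit false

namespace Pool.Agent.Y275.ND

open Pool.Agent.Y5 Pool.Agent.Y5.D

/-! Consequences of the conditions on the parameters. -/

variable {lm L C ℓ M : ℕ → ℝ} {B : ℕ → ℕ → ℝ}

lemma L_step (h : Seq lm L C ℓ M B) (n : ℕ) (hn : 1 ≤ L n) : 10 ^ 30 * L n ≤ L (n + 1) := by
  rw [← h.lm_succ n]
  exact mul_le_mul_of_nonneg_right (h.lm_big (n + 1)) (by linarith)

lemma L_one (h : Seq lm L C ℓ M B) (n : ℕ) : 1 ≤ L n := by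
  induction n with
  | zero => exact h.L0
  | succ n ih =>
    have := L_step h n ih
    nlinarith

lemma L_mono (h : Seq lm L C ℓ M B) (n : ℕ) : L n ≤ L (n + 1) := by
  have := L_step h n (L_one h n)
  have := L_one h n
  nlinarith

lemma L_pow (h : Seq lm L C ℓ M B) (n : ℕ) : 2 ^ n ≤ L n := by
  induction n with
  | zero => simpa using h.L0
  | succ n ih =>
    have h1 := L_step h n (L_one h n)
    have h2 := L_one h n
    rw [pow_succ]
    nlinarith

lemma M_bound (h : Seq lm L C ℓ M B) (n : ℕ) : M n ≤ M 0 * L n ^ 4 := by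
  cases n with
  | zero =>
    have h1 := h.M_one 0
    have h2 : 1 ≤ L 0 ^ 4 := one_le_pow₀ h.L0
    nlinarith
  | succ n =>
    have h1 := h.M_one 0
    have h2 := h.M_le n
    have h3 : L n ^ 4 ≤ L (n + 1) ^ 4 :=
      pow_le_pow_left₀ (by linarith [L_one h n]) (L_mono h n) 4
    have h4 : 0 ≤ L (n + 1) ^ 4 := by positivity
    nlinarith

lemma M_pow_bound (h : Seq lm L C ℓ M B) (n q : ℕ) : M n ^ q ≤ M 0 ^ q * L n ^ (4 * q) := by
  have h1 := M_bound h n
  have h2 : M n ^ q ≤ (M 0 * L n ^ 4) ^ q :=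
    pow_le_pow_left₀ (by linarith [h.M_one n]) h1 q
  rwa [mul_pow, ← pow_mul] at h2

lemma summable_Linv (h : Seq lm L C ℓ M B) : Summable (fun n => 1 / L n) := by
  refine Summable.of_nonneg_of_le (fun n => by have := L_one h n; positivity) (fun n => ?_)
    (summable_geometric_two)
  have h1 := L_pow h n
  rw [div_pow, one_pow]
  exact one_div_le_one_div_of_le (by positivity) h1

/-- the weights `L (gr a) ^ (-5)` are summable -/
lemma summable_L5 (h : Seq lm L C ℓ M B) {J : Type} (g : J → ℕ)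
    (hfin : ∀ m, {j | g j = m}.Finite) (hcard : ∀ m, ({j | g j = m}.ncard : ℝ) ≤ M m) :
    Summable (fun a : Ix J => 1 / L (gr g a) ^ 5) := by
  have hL := L_one h
  have hM0 := h.M_one 0
  have key : ∀ n, 1 / L n ^ 5 ≤ 1 / L n := by
    intro n
    have h1 := hL n
    refine one_div_le_one_div_of_le (by linarith) ?_
    calc L n = L n ^ 1 := (pow_one _).symm
      _ ≤ L n ^ 5 := pow_le_pow_right₀ h1 (by norm_num)
  have h1 : Summable (fun n => 1 / L n ^ 5) :=
    Summable.of_nonneg_of_le (fun n => by have := hL n; positivity) key (summable_Linv h)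
  have h2 : Summable (fun n => M n * (1 / L n ^ 5)) := by
    refine Summable.of_nonneg_of_le (fun n => ?_) (fun n => ?_) ((summable_Linv h).mul_left (M 0))
    · have := hL n
      have := h.M_one n
      positivity
    · have h3 := M_bound h n
      have h4 := hL n
      have h5 : (0 : ℝ) < L n := by linarith
      calc M n * (1 / L n ^ 5) ≤ (M 0 * L n ^ 4) * (1 / L n ^ 5) :=
            mul_le_mul_of_nonneg_right h3 (by positivity)
        _ = M 0 * (1 / L n) := by field_simp
  refine Summable.sum _ ?_ ?_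
  · exact h1
  · exact (fib hfin hcard (fun m => 1 / L m ^ 5) (fun m => by have := hL m; positivity) h2).1

/-- decay gives summability, with a uniform majorant -/
lemma dec_bound (h : Seq lm L C ℓ M B) (q : ℕ) (n : ℕ) (Cp x : ℝ)
    (hx : L n ^ (4 * q + 5) * |x| ≤ Cp) : |x| * M n ^ q ≤ (Cp * M 0 ^ q) * (1 / L n ^ 5) := by
  have h1 := M_pow_bound h n q
  have h2 := L_one h n
  have h3 : (0 : ℝ) < L n := by linarith
  have h4 : (0:ℝ) ≤ M 0 ^ q := pow_nonneg (by linarith [h.M_one 0]) q
  calc |x| * M n ^ q ≤ |x| * (M 0 ^ q * L n ^ (4 * q)) :=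
        mul_le_mul_of_nonneg_left h1 (abs_nonneg _)
    _ = (L n ^ (4 * q + 5) * |x|) * M 0 ^ q * (1 / L n ^ 5) := by
        rw [pow_add]
        field_simp
    _ ≤ (Cp * M 0 ^ q) * (1 / L n ^ 5) :=
        mul_le_mul_of_nonneg_right (mul_le_mul_of_nonneg_right hx h4) (by positivity)

end Pool.Agent.Y275.ND
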