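import Pool.Agent.Y275.ND.A2

open Set Filter Topology MeasureTheory

set_option autoImplicit false

namespace Pool.Agent.Y275.ND

open Pool.Agent.Y5 Pool.Agent.Y5.D

/-! Synthesis: `∑ z a • e a`. -/

variable {J : Type} {ν : ℝ} {g : J → ℕ} {F L ℓ M N : ℕ → ℝ} {e : Ix J → Fam}

/-- the family with the coefficients `z` -/
noncomputable def syn (e : Ix J → Fam) (z : Ix J → ℝ) : Fam := fun k => ∑' a, z a • e a k

lemma syn_sum (h : Conc ν g F L ℓ M N e) {z : Ix J → ℝ}
    (hz : Summable (fun a => |z a| * M (gr g a))) :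
    Summable (fun p : Ix J × Z3 => ‖z p.1 • e p.1 p.2‖) := by
  rw [summable_prod_of_nonneg (fun _ => norm_nonneg _)]
  have h1 : ∀ a, Summable (fun k => ‖z a • e a k‖) := by
    intro a
    simp only [norm_smul]
    exact (e_summable h a).mul_left _
  refine ⟨h1, ?_⟩
  refine Summable.of_nonneg_of_le (fun a => tsum_nonneg (fun _ => norm_nonneg _)) (fun a => ?_) hz
  simp only [norm_smul, Real.norm_eq_abs]
  rw [tsum_mul_left]
  exact mul_le_mul_of_nonneg_left (h.l1 a) (abs_nonneg _)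

lemma syn_sum' (h : Conc ν g F L ℓ M N e) {z : Ix J → ℝ}
    (hz : Summable (fun a => |z a| * M (gr g a))) (k : Z3) :
    Summable (fun a => ‖z a • e a k‖) :=
  (syn_sum h hz).prod_symm.prod_factor k

lemma syn_ot (h : Conc ν g F L ℓ M N e) {z : Ix J → ℝ}
    (hz : Summable (fun a => |z a| * M (gr g a))) : OT (syn e z) := by
  constructor
  · intro k
    unfold syn
    rw [← tsum_neg]
    apply tsum_congr
    intro a
    rw [(h.ot a).odd k, smul_neg]
  · intro k
    unfold syn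
    have h1 : Summable (fun a => z a • e a k) := (syn_sum' h hz k).of_norm
    have h2 := (innerSL ℝ (vec k)).map_tsum h1
    simp only [innerSL_apply_apply] at h2
    rw [h2]
    simp only [inner_smul_right, (h.ot _).tan, mul_zero, tsum_zero]

/-- the norms of the synthesised family -/
lemma syn_norm (h : Conc ν g F L ℓ M N e) {z : Ix J → ℝ} (m : ℕ)
    (hz : Summable (fun a => |z a| * M (gr g a)))
    (hz' : Summable (fun a => |z a| * M (gr g a) ^ (m + 1))) (k : Z3) :
    ‖vec k‖ ^ m * ‖syn e z k‖ ≤ ∑' a, |z a| * M (gr g a) ^ (m + 1) := by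
  have h1 := syn_sum' h hz k
  have h2 : ‖syn e z k‖ ≤ ∑' a, ‖z a • e a k‖ := norm_tsum_le_tsum_norm h1
  calc ‖vec k‖ ^ m * ‖syn e z k‖ ≤ ‖vec k‖ ^ m * ∑' a, ‖z a • e a k‖ :=
        mul_le_mul_of_nonneg_left h2 (by positivity)
    _ = ∑' a, ‖vec k‖ ^ m * ‖z a • e a k‖ := by rw [tsum_mul_left]
    _ ≤ ∑' a, |z a| * M (gr g a) ^ (m + 1) := by
        refine (h1.mul_left _).tsum_le_tsum (fun a => ?_) hz'
        rw [norm_smul, Real.norm_eq_abs]
        have := pow_e_le h a k m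
        calc ‖vec k‖ ^ m * (|z a| * ‖e a k‖) = |z a| * (‖vec k‖ ^ m * ‖e a k‖) := by ring
          _ ≤ |z a| * M (gr g a) ^ (m + 1) := mul_le_mul_of_nonneg_left this (abs_nonneg _)

lemma fieldOf_syn (h : Conc ν g F L ℓ M N e) {z : Ix J → ℝ}
    (hz : Summable (fun a => |z a| * M (gr g a))) (y : E3) :
    fieldOf (syn e z) y = ∑' a, z a • fieldOf (e a) y := by
  unfold fieldOf syn
  have hs : Summable (Function.uncurry fun (a : Ix J) (k : Z3) =>
      Real.sin (2 * Real.pi * inner ℝ (vec k) y) • (z a • e a k)) := by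
    refine Summable.of_norm_bounded (syn_sum h hz) (fun p => ?_)
    simp only [Function.uncurry]
    rw [norm_smul, Real.norm_eq_abs]
    have := Real.abs_sin_le_one (2 * Real.pi * inner ℝ (vec p.2) y)
    nlinarith [norm_nonneg (z p.1 • e p.1 p.2)]
  have h1 := hs.tsum_comm
  have h2 : ∀ k : Z3, Real.sin (2 * Real.pi * inner ℝ (vec k) y) • ∑' a, z a • e a k =
      ∑' a, Real.sin (2 * Real.pi * inner ℝ (vec k) y) • (z a • e a k) := by
    intro k
    exact ((syn_sum' h hz k).of_norm.tsum_const_smul _).symm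
  rw [tsum_congr h2, h1]
  apply tsum_congr
  intro a
  rw [← tsum_const_smul'']
  apply tsum_congr
  intro k
  rw [smul_comm]

lemma pair_syn (h : Conc ν g F L ℓ M N e) {z : Ix J → ℝ}
    (hz : Summable (fun a => |z a| * M (gr g a))) (W : Fam) (Cw : ℝ) (hW : ∀ k, ‖W k‖ ≤ Cw) :
    pair W (syn e z) = ∑' a, z a * pair W (e a) := by
  unfold pair syn
  have hs : Summable (Function.uncurry fun (a : Ix J) (k : Z3) =>
      z a * inner ℝ (W k) (e a k)) := by
    refine Summable.of_norm_bounded ((syn_sum h hz).mul_left Cw) (fun p => ?_)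
    simp only [Function.uncurry]
    rw [norm_mul, norm_smul]
    have h1 : ‖inner ℝ (W p.2) (e p.1 p.2)‖ ≤ Cw * ‖e p.1 p.2‖ :=
      (norm_inner_le_norm _ _).trans (mul_le_mul_of_nonneg_right (hW _) (norm_nonneg _))
    calc ‖z p.1‖ * ‖inner ℝ (W p.2) (e p.1 p.2)‖ ≤ ‖z p.1‖ * (Cw * ‖e p.1 p.2‖) :=
          mul_le_mul_of_nonneg_left h1 (norm_nonneg _)
      _ = Cw * (‖z p.1‖ * ‖e p.1 p.2‖) := by ring
  have h1 := hs.tsum_comm
  have h2 : ∀ k : Z3, inner ℝ (W k) (∑' a, z a • e a k) =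
      ∑' a, z a * inner ℝ (W k) (e a k) := by
    intro k
    have h3 := (innerSL ℝ (W k)).map_tsum (syn_sum' h hz k).of_norm
    simp only [innerSL_apply_apply] at h3
    rw [h3]
    simp only [inner_smul_right]
  rw [tsum_congr h2, h1]
  apply tsum_congr
  intro a
  rw [tsum_mul_left]

lemma pair_comm (V W : Fam) : pair V W = pair W V := by
  unfold pair
  exact tsum_congr (fun k => real_inner_comm _ _)

lemma pair_syn_e (h : Conc ν g F L ℓ M N e) {z : Ix J → ℝ}
    (hz : Summable (fun a => |z a| * M (gr g a))) (b : Ix J) : pair (syn e z) (e b) = z b := by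
  rw [pair_comm, pair_syn h hz (e b) (M (gr g b)) (e_le h b)]
  rw [tsum_eq_single b]
  · rw [(h.orth b b).1 rfl, mul_one]
  · intro a hab
    rw [(h.orth b a).2 (Ne.symm hab), mul_zero]

lemma syn_le (h : Conc ν g F L ℓ M N e) {z : Ix J → ℝ}
    (hz : Summable (fun a => |z a| * M (gr g a))) (k : Z3) :
    ‖syn e z k‖ ≤ ∑' a, |z a| * M (gr g a) := by
  have h1 := syn_norm h 0 hz (by simpa using hz) k
  simpa using h1

/-- Parseval -/
lemma pair_self (h : Conc ν g F L ℓ M N e) {z : Ix J → ℝ}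
    (hz : Summable (fun a => |z a| * M (gr g a))) : pair (syn e z) (syn e z) = ∑' a, z a ^ 2 := by
  rw [pair_syn h hz (syn e z) _ (syn_le h hz)]
  apply tsum_congr
  intro a
  rw [pair_syn_e h hz, sq]

/-- the nonlinearity -/
lemma bil_syn (h : Conc ν g F L ℓ M N e) {z : Ix J → ℝ}
    (hz : Summable (fun a => |z a| * M (gr g a))) (i : Ix J) :
    qd (fun j a b => bil (e a) (e b) (e j)) z i = bil (syn e z) (syn e z) (e i) := by
  have hzz := syn_sum h hz
  have hsum : Summable (Function.uncurry fun (p : Ix J × Ix J) (q : Z3 × Z3) =>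
      (z p.1 * inner ℝ (e p.1 q.1) (vec q.2)) *
        (z p.2 * inner ℝ (e p.2 (q.2 - q.1)) (e i q.2))) := by
    have h1 := (Summable.mul_of_nonneg hzz hzz (fun _ => norm_nonneg _)
      (fun _ => norm_nonneg _)).mul_left (M (gr g i) ^ 2)
    let φ : (Ix J × Ix J) × (Z3 × Z3) → (Ix J × Z3) × (Ix J × Z3) :=
      fun x => ((x.1.1, x.2.1), (x.1.2, x.2.2 - x.2.1))
    have hφ : Function.Injective φ := by
      rintro ⟨⟨a, b⟩, ⟨p, k⟩⟩ ⟨⟨a', b'⟩, ⟨p', k'⟩⟩ hx
      simp only [φ, Prod.mk.injEq] at hx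
      obtain ⟨⟨h1, h2⟩, h3, h4⟩ := hx
      subst h1 h2 h3
      have : k = k' := by
        have h5 := congrArg (· + p) h4
        simpa using h5
      rw [this]
    have h2 := h1.comp_injective hφ
    refine Summable.of_norm_bounded h2 (fun x => ?_)
    obtain ⟨⟨a, b⟩, ⟨p, k⟩⟩ := x
    simp only [Function.uncurry, Function.comp_apply, φ]
    have h3 : ‖inner ℝ (e a p) (vec k)‖ ≤ ‖e a p‖ * ‖vec k‖ := norm_inner_le_norm _ _
    have h4 : ‖inner ℝ (e b (k - p)) (e i k)‖ ≤ ‖e b (k - p)‖ * ‖e i k‖ := norm_inner_le_norm _ _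
    have h5 := pow_e_le h i k 1
    rw [pow_one] at h5
    rw [norm_mul, norm_mul, norm_mul, norm_smul, norm_smul]
    calc ‖z a‖ * ‖inner ℝ (e a p) (vec k)‖ * (‖z b‖ * ‖inner ℝ (e b (k - p)) (e i k)‖)
        ≤ ‖z a‖ * (‖e a p‖ * ‖vec k‖) * (‖z b‖ * (‖e b (k - p)‖ * ‖e i k‖)) := by
          gcongr
      _ = (‖vec k‖ * ‖e i k‖) * (‖z a‖ * ‖e a p‖ * (‖z b‖ * ‖e b (k - p)‖)) := by ring
      _ ≤ M (gr g i) ^ 2 * (‖z a‖ * ‖e a p‖ * (‖z b‖ * ‖e b (k - p)‖)) :=
          mul_le_mul_of_nonneg_right h5 (by positivity)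
  unfold qd bil
  have hA : ∀ k p : Z3, inner ℝ (syn e z p) (vec k) = ∑' a, z a * inner ℝ (e a p) (vec k) := by
    intro k p
    unfold syn
    have h3 := (innerSL ℝ (vec k)).map_tsum (syn_sum' h hz p).of_norm
    simp only [innerSL_apply_apply] at h3
    rw [real_inner_comm, h3]
    apply tsum_congr
    intro a
    rw [inner_smul_right, real_inner_comm]
  have hB : ∀ k p : Z3, inner ℝ (syn e z p) (e i k) = ∑' a, z a * inner ℝ (e a p) (e i k) := by
    intro k p
    unfold syn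
    have h3 := (innerSL ℝ (e i k)).map_tsum (syn_sum' h hz p).of_norm
    simp only [innerSL_apply_apply] at h3
    rw [real_inner_comm, h3]
    apply tsum_congr
    intro a
    rw [inner_smul_right, real_inner_comm]
  have hsA : ∀ k p : Z3, Summable (fun a => ‖z a * inner ℝ (e a p) (vec k)‖) := by
    intro k p
    refine Summable.of_nonneg_of_le (fun _ => norm_nonneg _) (fun a => ?_)
      ((syn_sum' h hz p).mul_right ‖vec k‖)
    rw [norm_mul, norm_smul, mul_assoc]
    exact mul_le_mul_of_nonneg_left (norm_inner_le_norm _ _) (norm_nonneg _)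
  have hsB : ∀ k p : Z3, Summable (fun a => ‖z a * inner ℝ (e a p) (e i k)‖) := by
    intro k p
    refine Summable.of_nonneg_of_le (fun _ => norm_nonneg _) (fun a => ?_)
      ((syn_sum' h hz p).mul_right ‖e i k‖)
    rw [norm_mul, norm_smul, mul_assoc]
    exact mul_le_mul_of_nonneg_left (norm_inner_le_norm _ _) (norm_nonneg _)
  have h1 : ∀ q : Z3 × Z3, inner ℝ (syn e z q.1) (vec q.2) *
      inner ℝ (syn e z (q.2 - q.1)) (e i q.2) = ∑' p : Ix J × Ix J,
      (z p.1 * inner ℝ (e p.1 q.1) (vec q.2)) *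
        (z p.2 * inner ℝ (e p.2 (q.2 - q.1)) (e i q.2)) := by
    intro q
    rw [hA, hB]
    exact tsum_mul_tsum_of_summable_norm (hsA q.2 q.1) (hsB q.2 (q.2 - q.1))
  rw [tsum_congr h1, hsum.tsum_comm, ← tsum_mul_left]
  apply tsum_congr
  intro p
  have h2 : ∑' q : Z3 × Z3, z p.1 * inner ℝ (e p.1 q.1) (vec q.2) *
      (z p.2 * inner ℝ (e p.2 (q.2 - q.1)) (e i q.2)) =
      (z p.1 * z p.2) * ∑' q : Z3 × Z3, inner ℝ (e p.1 q.1) (vec q.2) *
      inner ℝ (e p.2 (q.2 - q.1)) (e i q.2) := by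
    rw [← tsum_mul_left]
    apply tsum_congr
    intro q
    ring
  rw [h2]
  ring

end Pool.Agent.Y275.ND
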