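import Pool.Agent.Y275.ND.A3

open Set Filter Topology MeasureTheory

set_option autoImplicit false

namespace Pool.Agent.Y275.ND

open Pool.Agent.Y5 Pool.Agent.Y5.D

/-! Analysis: the coefficients of rapidly decreasing families. -/

variable {J : Type} {ν : ℝ} {g : J → ℕ} {F lm L C ℓ M N : ℕ → ℝ} {B : ℕ → ℕ → ℝ} {e : Ix J → Fam}

lemma sum_of_dec (hS : Seq lm L C ℓ M B) (hfin : ∀ m, {j | g j = m}.Finite)
    (hcard : ∀ m, ({j | g j = m}.ncard : ℝ) ≤ M m) (q : ℕ) (Cp : ℝ) (z : Ix J → ℝ)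
    (hz : ∀ a, L (gr g a) ^ (4 * q + 5) * |z a| ≤ Cp) :
    Summable (fun a => |z a| * M (gr g a) ^ q) ∧
    ∑' a, |z a| * M (gr g a) ^ q ≤ Cp * M 0 ^ q * ∑' a : Ix J, 1 / L (gr g a) ^ 5 := by
  have h1 := (summable_L5 hS g hfin hcard).mul_left (Cp * M 0 ^ q)
  have h2 : ∀ a, |z a| * M (gr g a) ^ q ≤ (Cp * M 0 ^ q) * (1 / L (gr g a) ^ 5) :=
    fun a => dec_bound hS q _ Cp (z a) (hz a)
  have h3 : Summable (fun a => |z a| * M (gr g a) ^ q) :=
    Summable.of_nonneg_of_le (fun a => mul_nonneg (abs_nonneg _)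
      (pow_nonneg (by linarith [hS.M_one (gr g a)]) _)) h2 h1
  refine ⟨h3, ?_⟩
  rw [← tsum_mul_left]
  exact h3.tsum_le_tsum h2 h1

lemma coef_dec (h : Conc ν g F L ℓ M N e) (hS : Seq lm L C ℓ M B) :
    ∃ D, 0 < D ∧ ∀ (p : ℕ) (V : Fam) (μ : ℝ), (∀ k, ‖vec k‖ ^ (3 * (p + 4)) * ‖V k‖ ≤ μ) →
      ∀ a, L (gr g a) ^ p * |pair V (e a)| ≤ D ^ (p + 4) * μ * M 0 := by
  obtain ⟨D, hD, hlow⟩ := h.lowf
  refine ⟨D, hD, fun p V μ hV a => ?_⟩
  have hL := L_one hS (gr g a)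
  have hL0 : 0 < L (gr g a) := by linarith
  have hμ : 0 ≤ μ := (mul_nonneg (pow_nonneg (norm_nonneg _) _) (norm_nonneg _)).trans (hV 0)
  have h1 : ∀ k, L (gr g a) ^ (p + 4) * ‖inner ℝ (V k) (e a k)‖ ≤ D ^ (p + 4) * μ * ‖e a k‖ := by
    intro k
    by_cases hk : e a k = 0
    · rw [hk]; simp
    · have h2 := hlow a k hk
      have h3 : L (gr g a) ^ (p + 4) ≤ D ^ (p + 4) * ‖vec k‖ ^ (3 * (p + 4)) := by
        calc L (gr g a) ^ (p + 4) ≤ (D * ‖vec k‖ ^ 3) ^ (p + 4) :=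
              pow_le_pow_left₀ hL0.le h2 _
          _ = D ^ (p + 4) * ‖vec k‖ ^ (3 * (p + 4)) := by rw [mul_pow, ← pow_mul]
      have h4 : ‖inner ℝ (V k) (e a k)‖ ≤ ‖V k‖ * ‖e a k‖ := norm_inner_le_norm _ _
      calc L (gr g a) ^ (p + 4) * ‖inner ℝ (V k) (e a k)‖
          ≤ (D ^ (p + 4) * ‖vec k‖ ^ (3 * (p + 4))) * (‖V k‖ * ‖e a k‖) :=
            mul_le_mul h3 h4 (norm_nonneg _) (by positivity)
        _ = D ^ (p + 4) * (‖vec k‖ ^ (3 * (p + 4)) * ‖V k‖) * ‖e a k‖ := by ring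
        _ ≤ D ^ (p + 4) * μ * ‖e a k‖ := by
            gcongr
            exact hV k
  have hsum : Summable (fun k => ‖inner ℝ (V k) (e a k)‖) := by
    refine Summable.of_nonneg_of_le (fun _ => norm_nonneg _) (fun k => ?_)
      ((e_summable h a).mul_left (D ^ (p + 4) * μ))
    have h2 := h1 k
    have h3 : 1 ≤ L (gr g a) ^ (p + 4) := one_le_pow₀ hL
    nlinarith [norm_nonneg (inner ℝ (V k) (e a k))]
  have h5 : |pair V (e a)| ≤ ∑' k, ‖inner ℝ (V k) (e a k)‖ := by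
    unfold pair
    exact norm_tsum_le_tsum_norm hsum
  have h6 : L (gr g a) ^ (p + 4) * |pair V (e a)| ≤ D ^ (p + 4) * μ * M (gr g a) := by
    calc L (gr g a) ^ (p + 4) * |pair V (e a)|
        ≤ L (gr g a) ^ (p + 4) * ∑' k, ‖inner ℝ (V k) (e a k)‖ :=
          mul_le_mul_of_nonneg_left h5 (by positivity)
      _ = ∑' k, L (gr g a) ^ (p + 4) * ‖inner ℝ (V k) (e a k)‖ := by rw [tsum_mul_left]
      _ ≤ ∑' k, D ^ (p + 4) * μ * ‖e a k‖ :=
          (hsum.mul_left _).tsum_le_tsum h1 ((e_summable h a).mul_left _)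
      _ = D ^ (p + 4) * μ * ∑' k, ‖e a k‖ := by rw [tsum_mul_left]
      _ ≤ D ^ (p + 4) * μ * M (gr g a) :=
          mul_le_mul_of_nonneg_left (h.l1 a) (by positivity)
  have h7 := M_bound hS (gr g a)
  have h8 : L (gr g a) ^ 4 * (L (gr g a) ^ p * |pair V (e a)|) ≤
      L (gr g a) ^ 4 * (D ^ (p + 4) * μ * M 0) := by
    calc L (gr g a) ^ 4 * (L (gr g a) ^ p * |pair V (e a)|)
        = L (gr g a) ^ (p + 4) * |pair V (e a)| := by rw [pow_add]; ring
      _ ≤ D ^ (p + 4) * μ * M (gr g a) := h6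
      _ ≤ D ^ (p + 4) * μ * (M 0 * L (gr g a) ^ 4) :=
          mul_le_mul_of_nonneg_left h7 (by positivity)
      _ = L (gr g a) ^ 4 * (D ^ (p + 4) * μ * M 0) := by ring
  exact le_of_mul_le_mul_left h8 (by positivity)

lemma coef_good (h : Conc ν g F L ℓ M N e) (hS : Seq lm L C ℓ M B)
    (hfin : ∀ m, {j | g j = m}.Finite) (hcard : ∀ m, ({j | g j = m}.ncard : ℝ) ≤ M m)
    (V : Fam) (hV : Rap V) (q : ℕ) : Summable (fun a => |pair V (e a)| * M (gr g a) ^ q) := by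
  obtain ⟨D, hD, h1⟩ := coef_dec h hS
  obtain ⟨μ, hμ⟩ := hV (3 * ((4 * q + 5) + 4))
  exact (sum_of_dec hS hfin hcard q _ _ (h1 (4 * q + 5) V μ hμ)).1

lemma coef_good1 (h : Conc ν g F L ℓ M N e) (hS : Seq lm L C ℓ M B)
    (hfin : ∀ m, {j | g j = m}.Finite) (hcard : ∀ m, ({j | g j = m}.ncard : ℝ) ≤ M m)
    (V : Fam) (hV : Rap V) : Summable (fun a => |pair V (e a)| * M (gr g a)) := by
  simpa using coef_good h hS hfin hcard V hV 1

lemma expand (h : Conc ν g F L ℓ M N e) (hS : Seq lm L C ℓ M B)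
    (hfin : ∀ m, {j | g j = m}.Finite) (hcard : ∀ m, ({j | g j = m}.ncard : ℝ) ≤ M m)
    (V : Fam) (hV0 : OT V) (hV : Rap V) : V = syn e (fun a => pair V (e a)) := by
  set z : Ix J → ℝ := fun a => pair V (e a) with hz
  have hg : Summable (fun a => |z a| * M (gr g a)) := coef_good1 h hS hfin hcard V hV
  have hot := syn_ot h hg
  have h1 : OT (fun k => V k - syn e z k) := by
    constructor
    · intro k
      show V (-k) - syn e z (-k) = -(V k - syn e z k)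
      rw [hV0.odd, hot.odd]
      abel
    · intro k
      rw [inner_sub_right, hV0.tan, hot.tan, sub_zero]
  have hfs : ∀ (W : Fam) (b : Ix J), Summable (fun k => inner ℝ (W k) (e b k)) := by
    intro W b
    apply summable_of_hasFiniteSupport
    refine (supp_finite h b).subset ?_
    intro k hk
    simp only [Function.mem_support, ne_eq] at hk
    intro h0
    apply hk
    rw [h0, inner_zero_right]
  have h2 : ∀ b, pair (fun k => V k - syn e z k) (e b) = 0 := by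
    intro b
    have h3 := pair_syn_e h hg b
    unfold pair at h3 ⊢
    simp only [inner_sub_left]
    rw [(hfs V b).tsum_sub (hfs (syn e z) b), h3]
    simp [hz, pair]
  have h4 := h.compl _ h1 h2
  funext k
  have := h4 k
  exact sub_eq_zero.1 this

end Pool.Agent.Y275.ND
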