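import Pool.Agent.Y275.ND.A4

open Set Filter Topology MeasureTheory

set_option autoImplicit false

namespace Pool.Agent.Y275.ND

open Pool.Agent.Y5 Pool.Agent.Y5.D

/-! A linear differential inequality, and coercivity. -/

lemma ode_le {T T' d Q : ℝ} {y q : ℝ → ℝ} (hd : 0 < d) (hT : T' < T)
    (hy : ∀ t ∈ Ico 0 T, HasDerivWithinAt y (-(d * y t) + q t) (Ico 0 T) t) (h0 : y 0 = 0)
    (hq : ∀ t ∈ Icc 0 T', |q t| ≤ Q) (t : ℝ) (ht : t ∈ Icc 0 T') : y t ≤ Q / d := by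
  have hsub : Icc 0 T' ⊆ Ico 0 T := fun s hs => ⟨hs.1, lt_of_le_of_lt hs.2 hT⟩
  have hQ : 0 ≤ Q := (abs_nonneg _).trans (hq t ht)
  have hder : ∀ s ∈ Ico 0 T, HasDerivWithinAt (fun s => Real.exp (d * s) * (y s - Q / d))
      (Real.exp (d * s) * (q s - Q)) (Ico 0 T) s := by
    intro s hs
    have h1 : HasDerivWithinAt (fun s => Real.exp (d * s)) (Real.exp (d * s) * (d * 1))
        (Ico 0 T) s := ((hasDerivAt_id s).const_mul d).exp.hasDerivWithinAt
    have h2 := (hy s hs).sub_const (Q / d)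
    have h3 := h1.mul h2
    refine h3.congr_deriv ?_
    field_simp
    ring
  have hcont : ContinuousOn (fun s => Real.exp (d * s) * (y s - Q / d)) (Icc 0 T') :=
    fun s hs => ((hder s (hsub hs)).continuousWithinAt).mono hsub
  have hanti : AntitoneOn (fun s => Real.exp (d * s) * (y s - Q / d)) (Icc 0 T') := by
    refine antitoneOn_of_hasDerivWithinAt_nonpos (f' := fun s => Real.exp (d * s) * (q s - Q))
      (convex_Icc 0 T') hcont ?_ ?_
    · intro s hs
      have hs' := interior_subset hs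
      exact (hder s (hsub hs')).mono (interior_subset.trans hsub)
    · intro s hs
      have hs' := interior_subset hs
      have h1 := (abs_le.1 (hq s hs')).2
      exact mul_nonpos_of_nonneg_of_nonpos (Real.exp_pos _).le (by linarith)
  have h1 := hanti (⟨le_rfl, ht.1.trans ht.2⟩ : (0:ℝ) ∈ Icc 0 T') ht ht.1
  simp only [mul_zero, Real.exp_zero, h0, zero_sub, one_mul] at h1
  have h2 : 0 ≤ Q / d := by positivity
  have h3 : Real.exp (d * t) * (y t - Q / d) ≤ 0 := by linarith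
  have h4 : y t - Q / d ≤ 0 := by
    by_contra hc
    push Not at hc
    have := mul_pos (Real.exp_pos (d * t)) hc
    linarith
  linarith

lemma ode_abs {T T' d Q : ℝ} {y q : ℝ → ℝ} (hd : 0 < d) (hT : T' < T)
    (hy : ∀ t ∈ Ico 0 T, HasDerivWithinAt y (-(d * y t) + q t) (Ico 0 T) t) (h0 : y 0 = 0)
    (hq : ∀ t ∈ Icc 0 T', |q t| ≤ Q) (t : ℝ) (ht : t ∈ Icc 0 T') : |y t| ≤ Q / d := by
  rw [abs_le]
  constructor
  · have h1 := ode_le (y := fun s => -y s) (q := fun s => -q s) hd hT (fun s hs => by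
      have := (hy s hs).neg
      refine this.congr_deriv ?_
      ring) (by simp [h0]) (fun s hs => by rw [abs_neg]; exact hq s hs) t ht
    linarith
  · exact ode_le hd hT hy h0 hq t ht

variable {J : Type} {ν : ℝ} {g : J → ℕ} {F lm L C ℓ M N : ℕ → ℝ} {B : ℕ → ℕ → ℝ} {e : Ix J → Fam}

lemma syn_norm_summable (h : Conc ν g F L ℓ M N e) {z : Ix J → ℝ}
    (hz : Summable (fun a => |z a| * M (gr g a))) : Summable (fun k => ‖syn e z k‖) := by
  refine Summable.of_nonneg_of_le (fun _ => norm_nonneg _) (fun k => ?_) (syn_sum h hz).prod_symm.prod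
  exact norm_tsum_le_tsum_norm (syn_sum' h hz k)

lemma syn_sq_summable (h : Conc ν g F L ℓ M N e) {z : Ix J → ℝ}
    (hz : Summable (fun a => |z a| * M (gr g a))) : Summable (fun k => ‖syn e z k‖ ^ 2) := by
  refine Summable.of_nonneg_of_le (fun _ => by positivity) (fun k => ?_)
    ((syn_norm_summable h hz).mul_left (∑' a, |z a| * M (gr g a)))
  have := syn_le h hz k
  rw [sq]
  exact mul_le_mul_of_nonneg_right this (norm_nonneg _)

/-- the part of the group `m` in the main mode -/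
noncomputable def zl (z : Ix J → ℝ) (m : ℕ) : Ix J → ℝ
  | Sum.inl n => if n = m then z (Sum.inl n) else 0
  | Sum.inr _ => 0

/-- the part of the group `m` in the other modes -/
noncomputable def zr (g : J → ℕ) (z : Ix J → ℝ) (m : ℕ) : Ix J → ℝ
  | Sum.inl _ => 0
  | Sum.inr j => if g j = m then z (Sum.inr j) else 0

lemma zlr (g : J → ℕ) (z : Ix J → ℝ) (a : Ix J) : zl z (gr g a) a + zr g z (gr g a) a = z a := by
  cases a <;> simp [zl, zr, gr]

lemma zl_supp (z : Ix J → ℝ) (m : ℕ) (a : Ix J) (ha : zl z m a ≠ 0) : a = Sum.inl m := by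
  cases a with
  | inl n =>
    simp only [zl] at ha
    by_cases h : n = m
    · rw [h]
    · simp [h] at ha
  | inr j => simp [zl] at ha

lemma zr_supp (g : J → ℕ) (z : Ix J → ℝ) (m : ℕ) (a : Ix J) (ha : zr g z m a ≠ 0) :
    ∃ j, a = Sum.inr j ∧ g j = m := by
  cases a with
  | inl n => simp [zr] at ha
  | inr j =>
    simp only [zr] at ha
    by_cases h : g j = m
    · exact ⟨j, rfl, h⟩
    · simp [h] at ha

lemma zl_good (z : Ix J → ℝ) (m : ℕ) :
    Summable (fun a => |zl z m a| * M (gr g a)) := by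
  apply summable_of_hasFiniteSupport
  refine (Set.finite_singleton (Sum.inl m : Ix J)).subset ?_
  intro a ha
  simp only [Function.mem_support, ne_eq] at ha
  refine Set.mem_singleton_iff.2 (zl_supp z m a ?_)
  intro h0
  apply ha
  rw [h0]; simp

lemma zr_good (hfin : ∀ m, {j | g j = m}.Finite) (z : Ix J → ℝ)
    (m : ℕ) : Summable (fun a => |zr g z m a| * M (gr g a)) := by
  apply summable_of_hasFiniteSupport
  refine ((hfin m).image (Sum.inr : J → Ix J)).subset ?_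
  intro a ha
  simp only [Function.mem_support, ne_eq] at ha
  obtain ⟨j, h1, h2⟩ := zr_supp g z m a (by
    intro h0
    apply ha
    rw [h0]; simp)
  exact ⟨j, h2, h1.symm⟩

lemma group_split (h : Conc ν g F L ℓ M N e) (hfin : ∀ m, {j | g j = m}.Finite) {z : Ix J → ℝ}
    (a₀ : Ix J) (k : Z3) (hk : e a₀ k ≠ 0) :
    syn e z k = z (Sum.inl (gr g a₀)) • e (Sum.inl (gr g a₀)) k + syn e (zr g z (gr g a₀)) k := by
  have h1 : ∀ a, z a • e a k = zl z (gr g a₀) a • e a k + zr g z (gr g a₀) a • e a k := by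
    intro a
    by_cases ha : e a k = 0
    · rw [ha]; simp
    · have h2 := h.disj a a₀ k ha hk
      rw [← add_smul, ← h2, zlr]
  have h2 : syn e z k = syn e (zl z (gr g a₀)) k + syn e (zr g z (gr g a₀)) k := by
    unfold syn
    rw [tsum_congr h1]
    exact ((syn_sum' h (zl_good z _) k).of_norm).tsum_add
      ((syn_sum' h (zr_good hfin z _) k).of_norm)
  rw [h2]
  congr 1
  unfold syn
  rw [tsum_eq_single (Sum.inl (gr g a₀))]
  · simp [zl]
  · intro a ha
    have : zl z (gr g a₀) a = 0 := by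
      by_contra hc
      exact ha (zl_supp z _ a hc)
    rw [this, zero_smul]

lemma zr_freq (h : Conc ν g F L ℓ M N e) (z : Ix J → ℝ) (m : ℕ) (k : Z3) :
    ‖vec k‖ ^ 2 * ‖syn e (zr g z m) k‖ ^ 2 ≤ F m ^ 2 * ‖syn e (zr g z m) k‖ ^ 2 := by
  by_cases h0 : syn e (zr g z m) k = 0
  · rw [h0]; simp
  · have h1 : ∃ a, zr g z m a • e a k ≠ 0 := by
      by_contra hc
      push Not at hc
      apply h0
      unfold syn
      simp [hc]
    obtain ⟨a, ha⟩ := h1
    obtain ⟨ha1, ha2⟩ := smul_ne_zero_iff.1 ha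
    obtain ⟨j, rfl, hj⟩ := zr_supp g z m a ha1
    have h2 := (h.fsupp _ k ha2).2
    simp only [gr] at h2
    rw [hj] at h2
    exact mul_le_mul_of_nonneg_right (pow_le_pow_left₀ (norm_nonneg _) h2 2) (by positivity)

lemma zr_energy (h : Conc ν g F L ℓ M N e) (hfin : ∀ m, {j | g j = m}.Finite) (z : Ix J → ℝ)
    (m : ℕ) : ∑' k, ‖syn e (zr g z m) k‖ ^ 2 = ∑ j ∈ (hfin m).toFinset, z (Sum.inr j) ^ 2 := by
  have h1 := pair_self h (zr_good hfin z m)
  unfold pair at h1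
  simp only [real_inner_self_eq_norm_sq] at h1
  rw [h1]
  rw [tsum_eq_sum (s := (hfin m).toFinset.map ⟨Sum.inr, Sum.inr_injective⟩)]
  · rw [Finset.sum_map]
    refine Finset.sum_congr rfl (fun j hj => ?_)
    simp only [Function.Embedding.coeFn_mk]
    have : g j = m := by simpa using hj
    simp [zr, this]
  · intro a ha
    have : zr g z m a = 0 := by
      by_contra hc
      obtain ⟨j, rfl, hj⟩ := zr_supp g z m a hc
      apply ha
      simp [hj]
    rw [this]; simp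

theorem coercive (h : Conc ν g F L ℓ M N e) (hν : 0 < ν) (hfin : ∀ m, {j | g j = m}.Finite)
    (S : ℕ → ℝ) (hSF : ∀ a : Ix J, 2 * (ν * ((2 * Real.pi) ^ 2 * F (gr g a) ^ 2)) ≤ S (gr g a) ^ 4)
    {z : Ix J → ℝ} (Mb : ℝ)
    (hb : ∀ s : Finset (Ix J), ∑ a ∈ s, dI ℓ S g a * z a ^ 2 ≤ Mb) :
    ν * ((2 * Real.pi) ^ 2 * ∑' k, ‖vec k‖ ^ 2 * ‖syn e z k‖ ^ 2) ≤ Mb := by
  classical
  set c : ℝ := ν * (2 * Real.pi) ^ 2 with hc
  have hc0 : 0 < c := by positivity
  -- the energies of the groups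
  set Am : ℕ → Z3 → ℝ := fun m k => 2 * (z (Sum.inl m) ^ 2 * (‖vec k‖ ^ 2 * ‖e (Sum.inl m) k‖ ^ 2)) +
    2 * (F m ^ 2 * ‖syn e (zr g z m) k‖ ^ 2) with hAm
  have hAm0 : ∀ m k, 0 ≤ Am m k := fun m k => by simp only [hAm]; positivity
  have hs1 : ∀ m, Summable (fun k => ‖vec k‖ ^ 2 * ‖e (Sum.inl m) k‖ ^ 2) := by
    intro m
    apply summable_of_hasFiniteSupport
    refine (supp_finite h (Sum.inl m)).subset ?_
    intro k hk
    simp only [Function.mem_support, ne_eq] at hk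
    intro h0
    apply hk
    rw [h0]; simp
  have hAs : ∀ m, Summable (Am m) := fun m =>
    (((hs1 m).mul_left _).mul_left 2).add
      (((syn_sq_summable h (zr_good hfin z m)).mul_left _).mul_left 2)
  have hAt : ∀ m, c * ∑' k, Am m k ≤
      ℓ m * z (Sum.inl m) ^ 2 + ∑ j ∈ (hfin m).toFinset, S m ^ 4 * z (Sum.inr j) ^ 2 := by
    intro m
    simp only [hAm]
    rw [((((hs1 m).mul_left _).mul_left 2)).tsum_add
      (((syn_sq_summable h (zr_good hfin z m)).mul_left _).mul_left 2)]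
    rw [tsum_mul_left, tsum_mul_left, tsum_mul_left, tsum_mul_left, zr_energy h hfin, mul_add,
      ← Finset.mul_sum]
    have h1 := h.coer m
    have h2 := hSF (Sum.inl m)
    simp only [gr] at h2
    have h3 : 0 ≤ ∑ j ∈ (hfin m).toFinset, z (Sum.inr j) ^ 2 :=
      Finset.sum_nonneg (fun _ _ => sq_nonneg _)
    apply add_le_add
    · calc c * (2 * (z (Sum.inl m) ^ 2 * ∑' k, ‖vec k‖ ^ 2 * ‖e (Sum.inl m) k‖ ^ 2))
          = (2 * (ν * ((2 * Real.pi) ^ 2 * ∑' k, ‖vec k‖ ^ 2 * ‖e (Sum.inl m) k‖ ^ 2))) *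
            z (Sum.inl m) ^ 2 := by rw [hc]; ring
        _ ≤ ℓ m * z (Sum.inl m) ^ 2 := mul_le_mul_of_nonneg_right h1 (sq_nonneg _)
    · calc c * (2 * (F m ^ 2 * ∑ j ∈ (hfin m).toFinset, z (Sum.inr j) ^ 2))
          = (2 * (ν * ((2 * Real.pi) ^ 2 * F m ^ 2))) *
            ∑ j ∈ (hfin m).toFinset, z (Sum.inr j) ^ 2 := by rw [hc]; ring
        _ ≤ S m ^ 4 * ∑ j ∈ (hfin m).toFinset, z (Sum.inr j) ^ 2 :=
            mul_le_mul_of_nonneg_right h2 h3
  -- the group of a frequency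
  have hmk : ∀ k : Z3, ∃ m, ‖vec k‖ ^ 2 * ‖syn e z k‖ ^ 2 ≤ Am m k := by
    intro k
    by_cases hk : ∃ a, e a k ≠ 0
    · obtain ⟨a₀, ha₀⟩ := hk
      refine ⟨gr g a₀, ?_⟩
      have h1 := group_split h hfin (z := z) a₀ k ha₀
      have h2 := zr_freq h z (gr g a₀) k
      have h3 : ‖syn e z k‖ ^ 2 ≤ 2 * ‖z (Sum.inl (gr g a₀)) • e (Sum.inl (gr g a₀)) k‖ ^ 2 +
          2 * ‖syn e (zr g z (gr g a₀)) k‖ ^ 2 := by
        rw [h1]
        have h4 := norm_add_le (z (Sum.inl (gr g a₀)) • e (Sum.inl (gr g a₀)) k)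
          (syn e (zr g z (gr g a₀)) k)
        have h5 := pow_le_pow_left₀ (norm_nonneg _) h4 2
        nlinarith [sq_nonneg (‖z (Sum.inl (gr g a₀)) • e (Sum.inl (gr g a₀)) k‖ -
          ‖syn e (zr g z (gr g a₀)) k‖)]
      have h6 : ‖z (Sum.inl (gr g a₀)) • e (Sum.inl (gr g a₀)) k‖ ^ 2 =
          z (Sum.inl (gr g a₀)) ^ 2 * ‖e (Sum.inl (gr g a₀)) k‖ ^ 2 := by
        rw [norm_smul, mul_pow, Real.norm_eq_abs, sq_abs]
      rw [h6] at h3
      simp only [hAm]
      have h7 := mul_le_mul_of_nonneg_left h3 (sq_nonneg ‖vec k‖)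
      calc ‖vec k‖ ^ 2 * ‖syn e z k‖ ^ 2
          ≤ ‖vec k‖ ^ 2 * (2 * (z (Sum.inl (gr g a₀)) ^ 2 * ‖e (Sum.inl (gr g a₀)) k‖ ^ 2) +
            2 * ‖syn e (zr g z (gr g a₀)) k‖ ^ 2) := h7
        _ = 2 * (z (Sum.inl (gr g a₀)) ^ 2 * (‖vec k‖ ^ 2 * ‖e (Sum.inl (gr g a₀)) k‖ ^ 2)) +
            2 * (‖vec k‖ ^ 2 * ‖syn e (zr g z (gr g a₀)) k‖ ^ 2) := by ring
        _ ≤ _ := by linarith
    · push Not at hk
      refine ⟨0, ?_⟩
      have : syn e z k = 0 := by
        unfold syn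
        simp [hk]
      rw [this]
      simpa using hAm0 0 k
  choose mk hmk using hmk
  have key : ∀ K : Finset Z3, ∑ k ∈ K, ‖vec k‖ ^ 2 * ‖syn e z k‖ ^ 2 ≤ Mb / c := by
    intro K
    rw [le_div_iff₀ hc0]
    set I := K.image mk with hI
    have h1 : ∑ k ∈ K, ‖vec k‖ ^ 2 * ‖syn e z k‖ ^ 2 ≤ ∑ m ∈ I, ∑' k, Am m k := by
      calc ∑ k ∈ K, ‖vec k‖ ^ 2 * ‖syn e z k‖ ^ 2 ≤ ∑ k ∈ K, Am (mk k) k :=
            Finset.sum_le_sum (fun k _ => hmk k)
        _ ≤ ∑ k ∈ K, ∑ m ∈ I, Am m k := by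
            refine Finset.sum_le_sum (fun k hk => ?_)
            exact Finset.single_le_sum (f := fun m => Am m k) (fun m _ => hAm0 m k)
              (Finset.mem_image_of_mem mk hk)
        _ = ∑ m ∈ I, ∑ k ∈ K, Am m k := Finset.sum_comm
        _ ≤ ∑ m ∈ I, ∑' k, Am m k :=
            Finset.sum_le_sum (fun m _ => (hAs m).sum_le_tsum K (fun k _ => hAm0 m k))
    have h2 : (∑ m ∈ I, ∑' k, Am m k) * c ≤ ∑ m ∈ I, (ℓ m * z (Sum.inl m) ^ 2 +
        ∑ j ∈ (hfin m).toFinset, S m ^ 4 * z (Sum.inr j) ^ 2) := by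
      rw [Finset.sum_mul]
      refine Finset.sum_le_sum (fun m _ => ?_)
      rw [mul_comm]
      exact hAt m
    have h3 : ∑ m ∈ I, (ℓ m * z (Sum.inl m) ^ 2 +
        ∑ j ∈ (hfin m).toFinset, S m ^ 4 * z (Sum.inr j) ^ 2) =
        ∑ a ∈ (I.map ⟨Sum.inl, Sum.inl_injective⟩ ∪
          (I.biUnion (fun m => (hfin m).toFinset)).map ⟨Sum.inr, Sum.inr_injective⟩ :
          Finset (Ix J)), dI ℓ S g a * z a ^ 2 := by
      rw [Finset.sum_union]
      · rw [Finset.sum_map, Finset.sum_map, Finset.sum_add_distrib, Finset.sum_biUnion]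
        · congr 1
          refine Finset.sum_congr rfl (fun m _ => Finset.sum_congr rfl (fun j hj => ?_))
          have : g j = m := by simpa using hj
          simp [dI, this]
        · intro m _ m' _ hmm
          rw [Function.onFun, Finset.disjoint_left]
          intro j hj hj'
          have h4 : g j = m := by simpa using hj
          have h5 : g j = m' := by simpa using hj'
          exact hmm (h4.symm.trans h5)
      · rw [Finset.disjoint_left]
        intro a ha ha'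
        simp only [Finset.mem_map, Function.Embedding.coeFn_mk] at ha ha'
        obtain ⟨m, _, rfl⟩ := ha
        obtain ⟨j, _, hj⟩ := ha'
        exact Sum.inr_ne_inl hj
    calc (∑ k ∈ K, ‖vec k‖ ^ 2 * ‖syn e z k‖ ^ 2) * c ≤ (∑ m ∈ I, ∑' k, Am m k) * c :=
          mul_le_mul_of_nonneg_right h1 hc0.le
      _ ≤ _ := h2
      _ = _ := h3
      _ ≤ Mb := hb _
  have hsum : Summable (fun k => ‖vec k‖ ^ 2 * ‖syn e z k‖ ^ 2) :=
    summable_of_sum_le (fun k => by positivity) key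
  have h1 := hsum.tsum_le_of_sum_le key
  rw [le_div_iff₀ hc0] at h1
  calc ν * ((2 * Real.pi) ^ 2 * ∑' k, ‖vec k‖ ^ 2 * ‖syn e z k‖ ^ 2)
      = (∑' k, ‖vec k‖ ^ 2 * ‖syn e z k‖ ^ 2) * c := by rw [hc]; ring
    _ ≤ Mb := h1

end Pool.Agent.Y275.ND
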