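import Pool.Agent.Y275.ND.A5

open Set Filter Topology MeasureTheory

set_option autoImplicit false

namespace Pool.Agent.Y275.ND

open Pool.Agent.Y5 Pool.Agent.Y5.D

/-! The lower bound of the velocity. -/

variable {J : Type} {ν : ℝ} {g : J → ℕ} {F lm L C ℓ M N : ℕ → ℝ} {B : ℕ → ℕ → ℝ} {e : Ix J → Fam}

lemma lm_lin (h : Seq lm L C ℓ M B) (n : ℕ) : 10 ^ 30 * ((n : ℝ) + 1) ≤ lm n := by
  induction n with
  | zero => simpa using h.lm_big 0
  | succ n ih =>
    have h1 := h.lm_grow n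
    have h2 : (0 : ℝ) ≤ n := Nat.cast_nonneg n
    push_cast
    nlinarith

lemma M_exp (h : Seq lm L C ℓ M B) (n : ℕ) : M (n + 1) ≤ Real.exp (lm n / 10 ^ 6) := by
  have h1 := h.exp_big n
  have h2 := L_one h (n + 5)
  have h3 := h.M_one (n + 5)
  have h4 : M (n + 1) ≤ M (n + 5) :=
    ((h.M_mono (n + 1)).trans (h.M_mono (n + 2))).trans ((h.M_mono (n + 3)).trans (h.M_mono (n + 4)))
  have h5 : M (n + 5) ≤ L (n + 5) * M (n + 5) := by nlinarith
  have h6 : 1 ≤ L (n + 5) * M (n + 5) := by nlinarith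
  have h7 : L (n + 5) * M (n + 5) ≤ (L (n + 5) * M (n + 5)) ^ 10 := by
    calc L (n + 5) * M (n + 5) = (L (n + 5) * M (n + 5)) ^ 1 := (pow_one _).symm
      _ ≤ (L (n + 5) * M (n + 5)) ^ 10 := pow_le_pow_right₀ h6 (by norm_num)
  linarith

lemma exp_half (n : ℕ) : Real.exp (-((n : ℝ) + 1)) ≤ (1 / 2) ^ (n + 1) := by
  have h1 : Real.exp (-((n : ℝ) + 1)) = Real.exp (-1) ^ (n + 1) := by
    rw [← Real.exp_nat_mul]
    congr 1
    push_cast
    ring
  rw [h1]
  refine pow_le_pow_left₀ (Real.exp_pos _).le ?_ _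
  have := Real.exp_neg_one_lt_d9
  linarith

lemma tail_term (h : Seq lm L C ℓ M B) (m : ℕ) (hm : 1 ≤ m) :
    Real.exp (-(lm (m - 1) / 200)) * M m ≤ (1 / 2) ^ (m + 1) := by
  obtain ⟨k, rfl⟩ : ∃ k, m = k + 1 := ⟨m - 1, by omega⟩
  simp only [Nat.add_sub_cancel]
  have h1 := M_exp h k
  have h2 := lm_lin h k
  have hk : (0 : ℝ) ≤ k := Nat.cast_nonneg k
  have h3 : Real.exp (-(lm k / 200)) * M (k + 1) ≤ Real.exp (-(lm k / 200)) * Real.exp (lm k / 10 ^ 6) :=
    mul_le_mul_of_nonneg_left h1 (Real.exp_pos _).le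
  rw [← Real.exp_add] at h3
  refine h3.trans (le_trans ?_ (exp_half (k + 1)))
  apply Real.exp_le_exp.2
  push_cast
  norm_num at h2 ⊢
  nlinarith

lemma N_sum (h : Conc ν g F L ℓ M N e) (hN : ∀ n, 0 ≤ N n) (n : ℕ) :
    ∑ m ∈ Finset.range n, N m ≤ (8 / 1000) ^ n * N n / 4000 := by
  have hgr : ∀ n, 10 ^ 6 * N n ≤ (8 / 1000) ^ (n + 1) * N (n + 1) := by
    intro n
    have h1 := h.N_grow n
    have h2 : (0:ℝ) < (8 / 1000) ^ (n + 1) := by positivity
    have h3 := mul_le_mul_of_nonneg_left h1 h2.le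
    have h4 : ((8:ℝ) / 1000) ^ (n + 1) * (10 ^ 6 * (1000 / 8) ^ (n + 1) * N n) = 10 ^ 6 * N n := by
      have h5 : ((8:ℝ) / 1000) ^ (n + 1) * (1000 / 8) ^ (n + 1) = 1 := by
        rw [← mul_pow]; norm_num
      calc ((8:ℝ) / 1000) ^ (n + 1) * (10 ^ 6 * (1000 / 8) ^ (n + 1) * N n)
          = (((8:ℝ) / 1000) ^ (n + 1) * (1000 / 8) ^ (n + 1)) * (10 ^ 6 * N n) := by ring
        _ = 10 ^ 6 * N n := by rw [h5, one_mul]
    rw [h4] at h3
    exact h3
  induction n with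
  | zero =>
    simp only [Finset.range_zero, Finset.sum_empty]
    have := hN 0
    positivity
  | succ n ih =>
    rw [Finset.sum_range_succ]
    have h1 := hgr n
    have h2 := hN n
    have h3 : ((8:ℝ) / 1000) ^ n ≤ 1 := pow_le_one₀ (by norm_num) (by norm_num)
    have h4 : ((8:ℝ) / 1000) ^ n * N n ≤ N n := by nlinarith
    linarith

lemma N_big (h : Conc ν g F L ℓ M N e) (n : ℕ) : 1 ≤ N n ∧ 2 ^ n ≤ N n := by
  induction n with
  | zero => exact ⟨h.N0, by simpa using h.N0⟩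
  | succ n ih =>
    have h1 := h.N_grow n
    have h2 : (1:ℝ) ≤ (1000 / 8) ^ (n + 1) := one_le_pow₀ (by norm_num)
    have h3 : 2 * N n ≤ N (n + 1) := by
      have : 10 ^ 6 * (1000 / 8 : ℝ) ^ (n + 1) * N n ≥ 10 ^ 6 * 1 * N n := by
        apply mul_le_mul_of_nonneg_right _ (by linarith [ih.1])
        linarith
      nlinarith [ih.1]
    refine ⟨by linarith [ih.1], ?_⟩
    rw [pow_succ]
    linarith [ih.2]

lemma N_unbounded (h : Conc ν g F L ℓ M N e) (R : ℝ) : ∃ n, R < (8 / 1000) ^ n * N n := by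
  obtain ⟨n, hn⟩ := pow_unbounded_of_one_lt R (one_lt_two)
  refine ⟨n + 1, ?_⟩
  have h1 := h.N_grow n
  have h2 : (0:ℝ) < (8 / 1000) ^ (n + 1) := by positivity
  have h3 := mul_le_mul_of_nonneg_left h1 h2.le
  have h5 : ((8:ℝ) / 1000) ^ (n + 1) * (1000 / 8) ^ (n + 1) = 1 := by
    rw [← mul_pow]; norm_num
  have h4 : ((8:ℝ) / 1000) ^ (n + 1) * (10 ^ 6 * (1000 / 8) ^ (n + 1) * N n) = 10 ^ 6 * N n := by
    calc ((8:ℝ) / 1000) ^ (n + 1) * (10 ^ 6 * (1000 / 8) ^ (n + 1) * N n)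
        = (((8:ℝ) / 1000) ^ (n + 1) * (1000 / 8) ^ (n + 1)) * (10 ^ 6 * N n) := by ring
      _ = 10 ^ 6 * N n := by rw [h5, one_mul]
  rw [h4] at h3
  have h6 := (N_big h n).2
  have h7 := (N_big h n).1
  nlinarith

lemma field_norm (h : Conc ν g F L ℓ M N e) (a : Ix J) (y : E3) :
    ‖fieldOf (e a) y‖ ≤ ∑' k, ‖e a k‖ := by
  unfold fieldOf
  have h1 : ∀ k, ‖Real.sin (2 * Real.pi * inner ℝ (vec k) y) • e a k‖ ≤ ‖e a k‖ := by
    intro k
    rw [norm_smul, Real.norm_eq_abs]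
    have := Real.abs_sin_le_one (2 * Real.pi * inner ℝ (vec k) y)
    nlinarith [norm_nonneg (e a k)]
  have h2 : Summable (fun k => ‖Real.sin (2 * Real.pi * inner ℝ (vec k) y) • e a k‖) :=
    Summable.of_nonneg_of_le (fun _ => norm_nonneg _) h1 (e_summable h a)
  exact (norm_tsum_le_tsum_norm h2).trans (h2.tsum_le_tsum h1 (e_summable h a))

theorem blow_lower (h : Conc ν g F L ℓ M N e) (hS : Seq lm L C ℓ M B)
    (hfin : ∀ m, {j | g j = m}.Finite) (hcard : ∀ m, ({j | g j = m}.ncard : ℝ) ≤ M m)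
    (S : ℕ → ℝ) (hSM : ∀ n, M n * 2 ^ (n + 1) ≤ S n) {z : Ix J → ℝ}
    (hz : Summable (fun a => |z a| * M (gr g a))) (h1 : ∀ a, |z a| ≤ 1)
    (h2 : ∀ w, |z (Sum.inr w)| ≤ M (g w) ^ 2 / S (g w) ^ 4) (n : ℕ)
    (h3 : (8 / 1000) ^ n ≤ z (Sum.inl n))
    (h4 : ∀ m, n < m → |z (Sum.inl m)| ≤ Real.exp (-(lm (m - 1) / 200))) :
    ∃ y, (8 / 1000) ^ n * N n / 2000 - 2 ≤ ‖fieldOf (syn e z) y‖ := by
  classical
  obtain ⟨y, hy⟩ := h.pt n
  refine ⟨y, ?_⟩
  rw [fieldOf_syn h hz]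
  have hy' : N n / 1000 ≤ ‖fieldOf (e (Sum.inl n)) y‖ := hy
  have hNn : 0 ≤ N n := by linarith [(N_big h n).1]
  set φ : Ix J → E3 := fun a => z a • fieldOf (e a) y with hφ
  -- majorants
  set bl : ℕ → ℝ := fun m => (if m ∈ Finset.range n then N m else 0) + (1 / 2) ^ (m + 1) with hbl
  set br : J → ℝ := fun w => M (g w) ^ 3 / S (g w) ^ 4 with hbr
  have hφs : Summable (fun a => ‖φ a‖) := by
    refine Summable.of_nonneg_of_le (fun _ => norm_nonneg _) (fun a => ?_) hz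
    simp only [hφ]
    rw [norm_smul, Real.norm_eq_abs]
    exact mul_le_mul_of_nonneg_left ((field_norm h a y).trans (h.l1 a)) (abs_nonneg _)
  have hhalf : Summable (fun m : ℕ => (1 / 2 : ℝ) ^ (m + 1)) :=
    (summable_nat_add_iff 1).2 summable_geometric_two
  have hhalft : ∑' m : ℕ, (1 / 2 : ℝ) ^ (m + 1) = 1 := by
    have : ∀ m : ℕ, (1 / 2 : ℝ) ^ (m + 1) = (1 / 2) * (1 / 2) ^ m := fun m => by rw [pow_succ]; ring
    rw [tsum_congr this, tsum_mul_left, tsum_geometric_two]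
    norm_num
  have hfs : Summable (fun m => if m ∈ Finset.range n then N m else 0) :=
    summable_of_ne_finset_zero (s := Finset.range n) (fun m hm => by simp [hm])
  have hbls : Summable bl := hfs.add hhalf
  have hblt : ∑' m, bl m = ∑ m ∈ Finset.range n, N m + 1 := by
    simp only [hbl]
    rw [hfs.tsum_add hhalf, hhalft]
    congr 1
    rw [tsum_eq_sum (s := Finset.range n) (fun m hm => by simp [hm])]
    exact Finset.sum_congr rfl (fun m hm => by simp [hm])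
  have hSp : ∀ m, 0 < S m := fun m => by
    have h5 := hS.M_one m
    have h6 : (0:ℝ) < 2 ^ (m + 1) := by positivity
    have := hSM m
    nlinarith
  have hterm : ∀ m, M m * (M m ^ 3 / S m ^ 4) ≤ (1 / 2) ^ (m + 1) := by
    intro m
    have h5 := hS.M_one m
    have h6 : (1:ℝ) ≤ 2 ^ (m + 1) := one_le_pow₀ (by norm_num)
    have h7 := hSM m
    have h8 : (M m * 2 ^ (m + 1)) ^ 4 ≤ S m ^ 4 :=
      pow_le_pow_left₀ (by positivity) h7 4
    have h9 : M m ^ 4 * 2 ^ (m + 1) ≤ S m ^ 4 := by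
      refine le_trans ?_ h8
      rw [mul_pow]
      have h10 : (2:ℝ) ^ (m + 1) ≤ (2 ^ (m + 1)) ^ 4 := by
        calc (2:ℝ) ^ (m + 1) = (2 ^ (m + 1)) ^ 1 := (pow_one _).symm
          _ ≤ (2 ^ (m + 1)) ^ 4 := pow_le_pow_right₀ h6 (by norm_num)
      exact mul_le_mul_of_nonneg_left h10 (by positivity)
    rw [← mul_div_assoc, div_le_iff₀ (pow_pos (hSp m) 4), one_div, inv_pow]
    have h11 : (0:ℝ) < 2 ^ (m + 1) := by positivity
    rw [inv_mul_eq_div, le_div_iff₀ h11]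
    calc M m * M m ^ 3 * 2 ^ (m + 1) = M m ^ 4 * 2 ^ (m + 1) := by ring
      _ ≤ S m ^ 4 := h9
  have hMS : Summable (fun m => M m * (M m ^ 3 / S m ^ 4)) :=
    Summable.of_nonneg_of_le (fun m => by
      have := hS.M_one m
      have := hSp m
      positivity) hterm hhalf
  obtain ⟨hbrs, hbrt⟩ := fib hfin hcard (fun m => M m ^ 3 / S m ^ 4) (fun m => by
      have := hS.M_one m
      have := hSp m
      positivity) hMS
  have hbrt' : ∑' w, br w ≤ 1 := hbrt.trans (by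
    rw [← hhalft]
    exact hMS.tsum_le_tsum hterm hhalf)
  -- pointwise bounds
  have hbound : ∀ a, a ≠ Sum.inl n → ‖φ a‖ ≤ Sum.elim bl br a := by
    intro a ha
    cases a with
    | inl m =>
      simp only [Sum.elim_inl, hφ, hbl]
      rw [norm_smul, Real.norm_eq_abs]
      have hN := (field_norm h (Sum.inl m) y).trans (h.l1N m)
      have hN0 : 0 ≤ N m := (norm_nonneg _).trans hN
      by_cases hm : m < n
      · simp only [Finset.mem_range, hm, if_true]
        have h5 : |z (Sum.inl m)| * ‖fieldOf (e (Sum.inl m)) y‖ ≤ 1 * N m :=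
          mul_le_mul (h1 _) hN (norm_nonneg _) zero_le_one
        have h6 : (0:ℝ) ≤ (1 / 2) ^ (m + 1) := by positivity
        linarith
      · have hm' : n < m := lt_of_le_of_ne (not_lt.1 hm) (fun hnm => ha (by rw [hnm]))
        simp only [Finset.mem_range, hm, if_false, zero_add]
        have h5 := tail_term hS m (by omega)
        have h6 := h.N_le m
        calc |z (Sum.inl m)| * ‖fieldOf (e (Sum.inl m)) y‖
            ≤ Real.exp (-(lm (m - 1) / 200)) * M m :=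
              mul_le_mul (h4 m hm') (hN.trans h6) (norm_nonneg _) (Real.exp_pos _).le
          _ ≤ (1 / 2) ^ (m + 1) := h5
    | inr w =>
      simp only [Sum.elim_inr, hφ, hbr]
      rw [norm_smul, Real.norm_eq_abs]
      have hN := (field_norm h (Sum.inr w) y).trans (h.l1 (Sum.inr w))
      simp only [gr] at hN
      have h5 := hSp (g w)
      have h6 := hS.M_one (g w)
      calc |z (Sum.inr w)| * ‖fieldOf (e (Sum.inr w)) y‖
          ≤ (M (g w) ^ 2 / S (g w) ^ 4) * M (g w) :=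
            mul_le_mul (h2 w) hN (norm_nonneg _) (by positivity)
        _ = M (g w) ^ 3 / S (g w) ^ 4 := by ring
  have hels : Summable (Sum.elim bl br) := Summable.sum _ hbls hbrs
  have helt : ∑' a, Sum.elim bl br a ≤ ∑ m ∈ Finset.range n, N m + 2 := by
    rw [Summable.tsum_sum (f := Sum.elim bl br) hbls hbrs]
    simp only [Sum.elim_inl, Sum.elim_inr]
    rw [hblt]
    linarith
  have hel0 : ∀ a, 0 ≤ Sum.elim bl br a := by
    intro a
    cases a with
    | inl m =>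
      simp only [Sum.elim_inl, hbl]
      have : (0:ℝ) ≤ if m ∈ Finset.range n then N m else 0 := by
        split_ifs
        · linarith [(N_big h m).1]
        · exact le_rfl
      positivity
    | inr w =>
      simp only [Sum.elim_inr, hbr]
      have h5 := hSp (g w)
      have h6 := hS.M_one (g w)
      positivity
  -- the sum without the term `inl n`
  set ψ : Ix J → E3 := fun a => if a = Sum.inl n then 0 else φ a with hψ
  have hψb : ∀ a, ‖ψ a‖ ≤ Sum.elim bl br a := by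
    intro a
    simp only [hψ]
    split_ifs with ha
    · rw [norm_zero]; exact hel0 a
    · exact hbound a ha
  have hψs : Summable (fun a => ‖ψ a‖) :=
    Summable.of_nonneg_of_le (fun _ => norm_nonneg _) hψb hels
  have hψn : ‖∑' a, ψ a‖ ≤ ∑ m ∈ Finset.range n, N m + 2 :=
    (norm_tsum_le_tsum_norm hψs).trans ((hψs.tsum_le_tsum hψb hels).trans helt)
  have hsplit : ∑' a, φ a = φ (Sum.inl n) + ∑' a, ψ a := by
    rw [hφs.of_norm.tsum_eq_add_tsum_ite (Sum.inl n)]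
  have hmain : (8 / 1000) ^ n * N n / 1000 ≤ ‖φ (Sum.inl n)‖ := by
    simp only [hφ]
    rw [norm_smul, Real.norm_eq_abs]
    have h5 : (8 / 1000) ^ n ≤ |z (Sum.inl n)| := h3.trans (le_abs_self _)
    calc (8 / 1000) ^ n * N n / 1000 = (8 / 1000) ^ n * (N n / 1000) := by ring
      _ ≤ |z (Sum.inl n)| * ‖fieldOf (e (Sum.inl n)) y‖ :=
          mul_le_mul h5 hy' (by positivity) (abs_nonneg _)
  have hNs := N_sum h (fun m => by linarith [(N_big h m).1]) n
  have hfin2 : ‖φ (Sum.inl n)‖ ≤ ‖∑' a, φ a‖ + ‖∑' a, ψ a‖ := by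
    have : φ (Sum.inl n) = ∑' a, φ a - ∑' a, ψ a := by rw [hsplit]; abel
    rw [this]
    exact norm_sub_le _ _
  have hc0 : 0 ≤ (8 / 1000 : ℝ) ^ n * N n := by positivity
  have : (8 / 1000 : ℝ) ^ n * N n / 2000 - 2 ≤ ‖∑' a, φ a‖ := by
    linarith
  exact this

end Pool.Agent.Y275.ND
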