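import Pool.Agent.Y275.ND.A6

open Set Filter Topology MeasureTheory

set_option autoImplicit false

namespace Pool.Agent.Y275.ND

open Pool.Agent.Y5 Pool.Agent.Y5.D

/-! The passage to fields. -/

variable {J : Type} {ν : ℝ} {g : J → ℕ} {F lm L C ℓ M N : ℕ → ℝ} {B : ℕ → ℕ → ℝ} {e : Ix J → Fam}

lemma kappa_one (hS : Seq lm L C ℓ M B) (S : ℕ → ℝ) (hS1 : ∀ n, 1 ≤ S n) (a : Ix J) :
    1 ≤ κI L S g a := by
  cases a with
  | inl n => exact one_le_pow₀ (L_one hS n)
  | inr j => exact hS1 (g j)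

lemma syn_init {z : Ix J → ℝ} (h0 : z (Sum.inl 0) = 1) (h1 : ∀ n, z (Sum.inl (n + 1)) = 0)
    (h2 : ∀ w, z (Sum.inr w) = 0) : syn e z = e (Sum.inl 0) := by
  funext k
  unfold syn
  rw [tsum_eq_single (Sum.inl 0)]
  · rw [h0, one_smul]
  · intro a ha
    cases a with
    | inl n =>
      cases n with
      | zero => exact absurd rfl ha
      | succ n => rw [h1, zero_smul]
    | inr w => rw [h2, zero_smul]

theorem t_PHYS : S_PHYS := by
  intro hF hB hC ν hν
  obtain ⟨J, g, F, lm, L, C, ℓ, M, N, B, e, hc, hS, hK⟩ := hC ν hν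
  obtain ⟨hip, hcnv, hdir⟩ := hF
  have hfin := hK.fin
  have hcard := hK.card
  set K : ℝ := 2 * (ν * (2 * Real.pi) ^ 2) with hKdef
  have hK0 : 0 ≤ K := by positivity
  obtain ⟨S, hS1, hS1', T, z, hT, hsol, hinit, hreg, huniq, hen, hder, hoth, hblow⟩ :=
    hB J g lm L C ℓ M B _ (fun n => M n * 2 ^ (n + 1) * (1 + K)) hK hS
  have hM1 := hS.M_one
  have hL1 := L_one hS
  have h2p : ∀ n : ℕ, (1:ℝ) ≤ 2 ^ (n + 1) := fun n => one_le_pow₀ (by norm_num)
  have hSM : ∀ n, M n * 2 ^ (n + 1) ≤ S n := by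
    intro n
    have h1 := hS1 n
    have h2 : 0 ≤ M n * 2 ^ (n + 1) := by have := hM1 n; positivity
    nlinarith
  have hMS : ∀ n, M n ≤ S n := by
    intro n
    have h1 := hSM n
    have h2 := hM1 n
    have h3 := h2p n
    nlinarith
  have hSF : ∀ a : Ix J, 2 * (ν * ((2 * Real.pi) ^ 2 * F (gr g a) ^ 2)) ≤ S (gr g a) ^ 4 := by
    intro a
    have h1 := F_ge hc a
    have h2 := hc.F_le (gr g a)
    have h3 : F (gr g a) ^ 2 ≤ M (gr g a) ^ 2 := pow_le_pow_left₀ (by linarith) h2 2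
    have h4 := hM1 (gr g a)
    have h5 : M (gr g a) * (1 + K) ≤ S (gr g a) := by
      have h6 := hS1 (gr g a)
      have h7 : M (gr g a) * (1 + K) ≤ M (gr g a) * 2 ^ (gr g a + 1) * (1 + K) := by
        have h8 := h2p (gr g a)
        have h9 : 0 ≤ M (gr g a) * (1 + K) := by positivity
        nlinarith
      linarith
    have h6 : (M (gr g a) * (1 + K)) ^ 4 ≤ S (gr g a) ^ 4 :=
      pow_le_pow_left₀ (by positivity) h5 4
    have h7 : K * M (gr g a) ^ 2 ≤ (M (gr g a) * (1 + K)) ^ 4 := by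
      have h8 : M (gr g a) ^ 2 ≤ M (gr g a) ^ 4 := pow_le_pow_right₀ h4 (by norm_num)
      have h9 : K ≤ (1 + K) ^ 4 := by
        have h10 : (1 + K) ^ 1 ≤ (1 + K) ^ 4 := pow_le_pow_right₀ (by linarith) (by norm_num)
        rw [pow_one] at h10
        linarith
      rw [mul_pow]
      calc K * M (gr g a) ^ 2 ≤ (1 + K) ^ 4 * M (gr g a) ^ 4 :=
            mul_le_mul h9 h8 (by positivity) (by positivity)
        _ = M (gr g a) ^ 4 * (1 + K) ^ 4 := by ring
    calc 2 * (ν * ((2 * Real.pi) ^ 2 * F (gr g a) ^ 2)) = K * F (gr g a) ^ 2 := by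
          rw [hKdef]; ring
      _ ≤ K * M (gr g a) ^ 2 := mul_le_mul_of_nonneg_left h3 hK0
      _ ≤ _ := h7
      _ ≤ _ := h6
  have hlam0 : ∀ a, 0 ≤ dI ℓ S g a := by
    intro a
    cases a with
    | inl n => exact hS.ℓ_nonneg n
    | inr j => simp only [dI]; positivity
  -- decay of the coefficients
  have hdec : ∀ T' < T, ∀ k : ℕ, ∃ Mk, ∀ t ∈ Icc 0 T', ∀ a, L (gr g a) ^ k * |z a t| ≤ Mk := by
    intro T' hT' k
    obtain ⟨Mk, hMk⟩ := hreg k T' hT'
    refine ⟨Mk, fun t ht a => ?_⟩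
    have h1 := hMk t ht a
    have h2 := kappa_one (g := g) hS S hS1' a
    have h3 : 0 ≤ L (gr g a) ^ k * |z a t| := by have := hL1 (gr g a); positivity
    have h4 : rI L g a ^ k * κI L S g a * |z a t| = κI L S g a * (L (gr g a) ^ k * |z a t|) := by
      simp only [rI]; ring
    rw [h4] at h1
    nlinarith
  have hgood : ∀ q : ℕ, ∀ t ∈ Ico 0 T, Summable (fun a => |z a t| * M (gr g a) ^ q) := by
    intro q t ht
    obtain ⟨Mk, hMk⟩ := hdec t ht.2 (4 * q + 5)
    exact (sum_of_dec hS hfin hcard q Mk (fun a => z a t) (hMk t ⟨ht.1, le_rfl⟩)).1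
  have hgood1 : ∀ t ∈ Ico 0 T, Summable (fun a => |z a t| * M (gr g a)) := by
    intro t ht
    simpa using hgood 1 t ht
  set V : ℝ → Fam := fun t => syn e (fun a => z a t) with hVdef
  have hVb : ∀ m : ℕ, ∀ T' < T, ∃ Mb, ∀ t ∈ Icc 0 T', ∀ k, ‖vec k‖ ^ m * ‖V t k‖ ≤ Mb := by
    intro m T' hT'
    obtain ⟨Mk, hMk⟩ := hdec T' hT' (4 * (m + 1) + 5)
    refine ⟨Mk * M 0 ^ (m + 1) * ∑' a : Ix J, 1 / L (gr g a) ^ 5, fun t ht k => ?_⟩
    have ht' : t ∈ Ico 0 T := ⟨ht.1, lt_of_le_of_lt ht.2 hT'⟩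
    have h1 := sum_of_dec hS hfin hcard (m + 1) Mk (fun a => z a t) (hMk t ht)
    exact (syn_norm hc m (hgood1 t ht') h1.1 k).trans h1.2
  have hVot : ∀ t ∈ Ico 0 T, OT (V t) := fun t ht => syn_ot hc (hgood1 t ht)
  have hVrap : ∀ t ∈ Ico 0 T, Rap (V t) := by
    intro t ht m
    obtain ⟨Mb, hMb⟩ := hVb m t ht.2
    exact ⟨Mb, hMb t ⟨ht.1, le_rfl⟩⟩
  have hipz : ∀ t ∈ Ico 0 T, ∀ a, ip (fieldOf (V t)) (fieldOf (e a)) = z a t := by
    intro t ht a
    rw [hip _ _ (hVot t ht) (hVrap t ht) (hc.ot a) (rap_e hc a)]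
    exact pair_syn_e hc (hgood1 t ht) a
  refine ⟨Ix J, fun a => fieldOf (e a), dI ℓ S g, Sum.inl 0, T, fun t => fieldOf (V t),
    ?_, hT, ?_, ?_, ?_, ?_, ?_⟩
  · -- Diss
    refine ⟨fun a => ⟨e a, hc.ot a, rap_e hc a, rfl⟩, hlam0, ?_, ?_, ?_⟩
    · intro i j
      rw [hip _ _ (hc.ot i) (rap_e hc i) (hc.ot j) (rap_e hc j)]
      exact hc.orth i j
    · rintro v ⟨V', hV0, hV, rfl⟩ h1 y
      have h2 : ∀ a, pair V' (e a) = 0 := by
        intro a
        rw [← hip _ _ hV0 hV (hc.ot a) (rap_e hc a)]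
        exact h1 a
      have h3 := hc.compl V' hV0 h2
      unfold fieldOf
      simp [h3]
    · rintro v ⟨V', hV0, hV, rfl⟩ Mb h1
      rw [hdir V' hV0 hV]
      have h2 := expand hc hS hfin hcard V' hV0 hV
      have h3 := coercive hc hν hfin S hSF (z := fun a => pair V' (e a)) Mb (by
        intro s
        have h4 := h1 s
        simp only [hip _ _ hV0 hV (hc.ot _) (rap_e hc _)] at h4
        exact h4)
      rw [← h2] at h3
      exact h3
  · -- Sol2
    refine ⟨⟨V, fun t ht => ⟨hVot t ht, rfl⟩, hVb⟩, ?_⟩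
    intro i t ht
    have h1 := hsol.deriv i t ht
    have h2 : HasDerivWithinAt (fun τ => ip (fieldOf (V τ)) (fieldOf (e i)))
        (-(dI ℓ S g i * z i t) + qd (fun j a b => bil (e a) (e b) (e j)) (fun a => z a t) i)
        (Ico 0 T) t :=
      h1.congr (fun τ hτ => hipz τ hτ i) (hipz t ht i)
    refine h2.congr_deriv ?_
    rw [hipz t ht i, hcnv _ _ (hVot t ht) (hVrap t ht) (hc.ot i) (rap_e hc i),
      bil_syn hc (hgood1 t ht) i]
    ring
  · -- initial datum
    show fieldOf (V 0) = fieldOf (e (Sum.inl 0))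
    rw [hVdef]
    simp only
    rw [syn_init hinit.1 hinit.2.1 hinit.2.2]
  · -- uniqueness
    intro T' v hT' hv hv0
    obtain ⟨V', hV', hV'b⟩ := hv.reg
    have hrap : ∀ t ∈ Ico 0 T', Rap (V' t) := by
      intro t ht m
      obtain ⟨Mb, hMb⟩ := hV'b m t ht.2
      exact ⟨Mb, hMb t ⟨ht.1, le_rfl⟩⟩
    set z' : Ix J → ℝ → ℝ := fun a t => pair (V' t) (e a) with hz'
    have hipz' : ∀ t ∈ Ico 0 T', ∀ a, ip (v t) (fieldOf (e a)) = z' a t := by
      intro t ht a
      rw [(hV' t ht).2, hip _ _ (hV' t ht).1 (hrap t ht) (hc.ot a) (rap_e hc a)]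
    have hgood' : ∀ t ∈ Ico 0 T', Summable (fun a => |z' a t| * M (gr g a)) :=
      fun t ht => coef_good1 hc hS hfin hcard (V' t) (hrap t ht)
    have hexp : ∀ t ∈ Ico 0 T', V' t = syn e (fun a => z' a t) :=
      fun t ht => expand hc hS hfin hcard (V' t) (hV' t ht).1 (hrap t ht)
    have h0mem : (0:ℝ) ∈ Ico 0 T' := ⟨le_rfl, hT'⟩
    have hz0 : ∀ a, z' a 0 = pair (e (Sum.inl 0)) (e a) := by
      intro a
      rw [← hipz' 0 h0mem a, hv0, hip _ _ (hc.ot _) (rap_e hc _) (hc.ot a) (rap_e hc a)]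
    have hderiv' : ∀ i, ∀ t ∈ Ico 0 T', HasDerivWithinAt (z' i)
        (-(dI ℓ S g i * z' i t) + qd (fun j a b => bil (e a) (e b) (e j)) (fun a => z' a t) i)
        (Ico 0 T') t := by
      intro i t ht
      have h1 := hv.eqn i t ht
      have h2 : HasDerivWithinAt (z' i)
          (-(dI ℓ S g i * ip (v t) (fieldOf (e i))) - cnv (v t) (fieldOf (e i))) (Ico 0 T') t :=
        h1.congr (fun τ hτ => (hipz' τ hτ i).symm) (hipz' t ht i).symm
      refine h2.congr_deriv ?_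
      rw [hipz' t ht i, (hV' t ht).2,
        hcnv _ _ (hV' t ht).1 (hrap t ht) (hc.ot i) (rap_e hc i),
        bil_syn hc (hgood' t ht) i, ← hexp t ht]
      ring
    obtain ⟨D, hD, hcoef⟩ := coef_dec hc hS
    have hbdd' : ∀ T'' < T', ∃ Mb, ∀ t ∈ Icc 0 T'', ∀ i, κI L S g i * |z' i t| ≤ Mb := by
      intro T'' hT''
      obtain ⟨μ, hμ⟩ := hV'b (3 * (10 + 4)) T'' hT''
      obtain ⟨μ', hμ'⟩ := hV'b (3 * (5 + 4)) T'' hT''
      set A : ℝ := D ^ (10 + 4) * μ * M 0 with hA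
      set A' : ℝ := D ^ (5 + 4) * μ' * M 0 with hA'
      set E : ℝ := A' ^ 2 * ∑' a : Ix J, 1 / L (gr g a) ^ 5 with hE
      have hs5 := summable_L5 hS g hfin hcard
      have hE0 : 0 ≤ E := mul_nonneg (sq_nonneg _) (tsum_nonneg (fun a => by
        have := hL1 (gr g a); positivity))
      have hsub : ∀ t ∈ Icc 0 T'', t ∈ Ico 0 T' := fun t ht => ⟨ht.1, lt_of_le_of_lt ht.2 hT''⟩
      have hen' : ∀ t ∈ Icc 0 T'', Summable (fun a => z' a t ^ 2) ∧ ∑' a, z' a t ^ 2 ≤ E := by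
        intro t ht
        have h1 : ∀ a, z' a t ^ 2 ≤ A' ^ 2 * (1 / L (gr g a) ^ 5) := by
          intro a
          have h2 := hcoef 5 (V' t) μ' (hμ' t ht) a
          have h3 := hL1 (gr g a)
          have h4 : (1:ℝ) ≤ L (gr g a) ^ 5 := one_le_pow₀ h3
          have h5 : |z' a t| ≤ A' := by
            have : |z' a t| ≤ L (gr g a) ^ 5 * |z' a t| := by nlinarith [abs_nonneg (z' a t)]
            exact this.trans h2
          have h6 : |z' a t| ≤ A' / L (gr g a) ^ 5 := by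
            rw [le_div_iff₀ (by linarith), mul_comm]
            exact h2
          calc z' a t ^ 2 = |z' a t| * |z' a t| := by rw [← sq_abs]; ring
            _ ≤ A' * (A' / L (gr g a) ^ 5) := mul_le_mul h5 h6 (abs_nonneg _)
                ((abs_nonneg _).trans h5)
            _ = A' ^ 2 * (1 / L (gr g a) ^ 5) := by ring
        have h2 : Summable (fun a => z' a t ^ 2) :=
          Summable.of_nonneg_of_le (fun _ => sq_nonneg _) h1 (hs5.mul_left _)
        refine ⟨h2, ?_⟩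
        rw [hE, ← tsum_mul_left]
        exact h2.tsum_le_tsum h1 (hs5.mul_left _)
      refine ⟨max A E, fun t ht i => ?_⟩
      cases i with
      | inl n =>
        have h2 := hcoef 10 (V' t) μ (hμ t ht) (Sum.inl n)
        simp only [κI, gr] at h2 ⊢
        exact h2.trans (le_max_left _ _)
      | inr w =>
        refine le_trans ?_ (le_max_right _ _)
        have hSw := hS1' (g w)
        have hSw0 : 0 < S (g w) := by linarith
        have hMw := hM1 (g w)
        have h1 := ode_abs (T := T') (T' := T'') (d := S (g w) ^ 4) (Q := M (g w) * E)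
          (y := z' (Sum.inr w))
          (q := fun s => qd (fun j a b => bil (e a) (e b) (e j)) (fun a => z' a s) (Sum.inr w))
          (by positivity) hT'' (fun s hs => hderiv' (Sum.inr w) s hs)
          (by rw [hz0]; exact (hc.orth _ _).2 (by simp))
          (fun s hs => by
            have h2 := hK.quad (Sum.inr w) (fun a => z' a s) (hen' s hs).1
            refine h2.trans ?_
            exact mul_le_mul_of_nonneg_left (hen' s hs).2 (by simp only [gr]; linarith)) t ht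
        simp only [κI]
        have h3 : S (g w) * |z' (Sum.inr w) t| ≤ S (g w) * (M (g w) * E / S (g w) ^ 4) :=
          mul_le_mul_of_nonneg_left h1 hSw0.le
        refine h3.trans ?_
        have h4 : S (g w) * (M (g w) * E / S (g w) ^ 4) = (M (g w) / S (g w) ^ 3) * E := by
          field_simp
        rw [h4]
        have h5 : M (g w) / S (g w) ^ 3 ≤ 1 := by
          rw [div_le_one (by positivity)]
          have h6 : S (g w) ≤ S (g w) ^ 3 := by
            calc S (g w) = S (g w) ^ 1 := (pow_one _).symm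
              _ ≤ S (g w) ^ 3 := pow_le_pow_right₀ hSw (by norm_num)
          exact (hMS _).trans h6
        nlinarith
    have hasol : ASol (dI ℓ S g) (κI L S g) (fun j a b => bil (e a) (e b) (e j)) T' z' :=
      ⟨hderiv', hbdd'⟩
    have hinit' : Init z' := by
      refine ⟨?_, fun n => ?_, fun w => ?_⟩
      · rw [hz0]; exact (hc.orth _ _).1 rfl
      · rw [hz0]; exact (hc.orth _ _).2 (by simp)
      · rw [hz0]; exact (hc.orth _ _).2 (by simp)
    obtain ⟨h1, h2⟩ := huniq T' z' hT' hasol hinit'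
    refine ⟨h1, fun t ht => ?_⟩
    rw [(hV' t ht).2, hexp t ht]
    have h3 : (fun a => z' a t) = fun a => z a t := funext (fun a => h2 a t ht)
    rw [h3]
  · -- energy inequality
    intro t ht
    obtain ⟨h1, h2⟩ := hder t ht
    have hpar : ∀ τ ∈ Ico 0 T, ip (fieldOf (V τ)) (fieldOf (V τ)) = ∑' a, z a τ ^ 2 := by
      intro τ hτ
      rw [hip _ _ (hVot τ hτ) (hVrap τ hτ) (hVot τ hτ) (hVrap τ hτ)]
      exact pair_self hc (hgood1 τ hτ)
    refine ⟨_, h2.congr (fun τ hτ => hpar τ hτ) (hpar t ht), ?_⟩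
    have h3 := coercive hc hν hfin S hSF (z := fun a => z a t) (∑' a, dI ℓ S g a * z a t ^ 2) (by
      intro s
      exact h1.sum_le_tsum s (fun a _ => mul_nonneg (hlam0 a) (sq_nonneg _)))
    rw [hdir _ (hVot t ht) (hVrap t ht)]
    have h4 : ν * ((2 * Real.pi) ^ 2 * ∑' k, ‖vec k‖ ^ 2 * ‖V t k‖ ^ 2) ≤
      ∑' a, dI ℓ S g a * z a t ^ 2 := h3
    linarith
  · -- blow-up
    intro Mb
    obtain ⟨n, hn⟩ := N_unbounded hc (2000 * (Mb + 2))
    obtain ⟨t, ht, h3, h4⟩ := hblow n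
    have h1 : ∀ a, |z a t| ≤ 1 := by
      intro a
      obtain ⟨h5, h6⟩ := hen t ht
      have h7 : z a t ^ 2 ≤ 1 := (h5.le_tsum a (fun _ _ => sq_nonneg _)).trans h6
      exact abs_le_one_iff_mul_self_le_one.2 (by nlinarith)
    obtain ⟨y, hy⟩ := blow_lower hc hS hfin hcard S hSM (z := fun a => z a t) (hgood1 t ht) h1
      (fun w => hoth w t ht) n h3 h4
    refine ⟨t, ht, y, ?_⟩
    have h5 : (8 / 1000 : ℝ) ^ n * N n / 2000 - 2 ≤ ‖fieldOf (V t) y‖ := hy
    linarith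

end Pool.Agent.Y275.ND
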